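import Pool.Agent.helper3.K93Main

/-!
If a graph is cospectral with the Kneser graph `K(9,3)` and each of its edges lies in a triangle,
then it is isomorphic to `K(9,3)`.
-/

namespace Pool.Agent.Results.MP_8ffa71_co.EdgesInTriangles

open Pool.Agent.helper3.K93

theorem result {V : Type*} [Fintype V] [DecidableEq V] (G : SimpleGraph V) [DecidableRel G.Adj]
    (hcosp : (G.adjMatrix ℝ).charpoly = (kneser93.adjMatrix ℝ).charpoly)
    (htri : ∀ v w, G.Adj v w → ∃ u, G.Adj u v ∧ G.Adj u w) :
    Nonempty (G ≃g kneser93) :=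
  Pool.Agent.helper3.K93.main G hcosp htri

end Pool.Agent.Results.MP_8ffa71_co.EdgesInTriangles
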