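import Pool.Agent.helper13.K93W.Fin

/-!
Switching with respect to a pair of sets of vertices (Wang-Qiu-Hu switching), of any size, never
leads from the Kneser graph `K(9,3)` to another graph; the same for chains of such switchings,
mixed with Godsil-McKay switchings and with rational similarities of level not divisible by 6.
-/

set_option autoImplicit false

namespace Pool.Agent.Results.MP_8ffa71_co.PairSwitching

open Pool.Agent.helper3.K93 Pool.Agent.helper98.K93R Pool.Agent.helper20.K93 Pool.Agent.helper13.K93W

universe u

theorem result :
    (∀ (V : Type u) [Fintype V] [DecidableEq V] (K G : SimpleGraph V), Nonempty (K ≃g kneser93) →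
      Relation.ReflTransGen (fun X Y => PairAny X Y ∨ GMany X Y ∨ Sim X Y) K G →
        Nonempty (G ≃g kneser93)) ∧
    ∀ C D : Finset Tri, IsPair kneser93 C D → 0 < C.card → 6 ∣ C.card →
      ∀ v, ¬ Special kneser93 C D v :=
  ⟨fun V _ _ K G hK h => chain K G hK h,
    fun C D h hpos h6 v => no_special' kneser93 (SimpleGraph.Iso.refl) C D h h6 hpos v⟩

end Pool.Agent.Results.MP_8ffa71_co.PairSwitching
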