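import Pool.Agent.helper20.K93.GM

/-!
A graph cospectral with the Kneser graph `K(9,3)` is isomorphic to it as soon as its rank modulo 2 or
modulo 3 is not larger than that of `K(9,3)`; equivalently, as soon as it arises from `K(9,3)` by a
chain of rational similarities of levels not divisible by 6, or by a chain of Godsil-McKay switchings
with respect to sets of any size.
-/

set_option autoImplicit false

namespace Pool.Agent.Results.MP_8ffa71_co.RanksAndLevels

open Pool.Agent.helper3.K93 Pool.Agent.helper98.K93R Pool.Agent.helper20.K93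

theorem result {V : Type*} [Fintype V] [DecidableEq V] (G : SimpleGraph V) [DecidableRel G.Adj]
    (hcosp : (G.adjMatrix ℝ).charpoly = (kneser93.adjMatrix ℝ).charpoly) :
    List.TFAE [Nonempty (G ≃g kneser93),
      (G.adjMatrix (ZMod 2)).rank ≤ 49,
      (G.adjMatrix (ZMod 3) + 1).rank ≤ 28,
      ∃ K : SimpleGraph V, Nonempty (K ≃g kneser93) ∧ Relation.ReflTransGen Sim K G,
      ∃ K : SimpleGraph V, Nonempty (K ≃g kneser93) ∧ Relation.ReflTransGen GMany K G] :=
  main_tfae3 G hcosp

end Pool.Agent.Results.MP_8ffa71_co.RanksAndLevels
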